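import Pool.Agent.H10.CE.Targets

/-! Row FIX of `cex_modules`: few bad windows for fixed frequencies. -/

set_option autoImplicit false

open Finset Matrix Pool.Agent.H10.CE

namespace Pool.Agent.H79.CE

theorem pf_FIX (hMAT : T_MAT) (hTRB : T_TRB) : T_FIX := by
  classical
  intro c S M P a Y₁ Y r α β ε R Q hc hε hS hSP hSM haP hR hQ hQR
  have hS1 : (1 : ℝ) ≤ S := by exact_mod_cast hS
  have hS0 : (0 : ℝ) < S := by linarith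
  have hP0 : (0 : ℝ) < P := by exact_mod_cast (lt_of_lt_of_le hS hSP)
  have hM0 : (0 : ℝ) < M := by exact_mod_cast (lt_of_lt_of_le hS hSM)
  have hQ0 : 0 < Q := by rw [hQ]; positivity
  have hR0 : 0 < R := hQ0.trans_le hQR
  obtain ⟨π, hπ⟩ : ∃ π : ℝ, π = ((Pr P).card : ℝ) := ⟨_, rfl⟩
  have hπ0 : 0 < π := by
    have h0 : 0 ≤ π := by rw [hπ]; positivity
    rcases h0.eq_or_lt with h | h
    · rw [hR, ← hπ, ← h, zero_mul] at hR0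
      exact absurd hR0 (lt_irrefl _)
    · exact h
  rw [← hπ] at hR ⊢
  obtain ⟨Tr, hTr⟩ : ∃ Tr : ℕ → ℝ, ∀ y, Tr y =
      ((((mA c S M P a y (M / S + 1) ((M + 2 * a * P) / S + 1) α β)ᴴ *
        mA c S M P a y (M / S + 1) ((M + 2 * a * P) / S + 1) α β) ^ (2 ^ r)).trace).re :=
    ⟨_, fun _ => rfl⟩
  obtain ⟨D, hD⟩ : ∃ D : ℕ, D = 2 ^ r := ⟨_, rfl⟩
  have hmat : ∀ y (F G : ℕ → ℂ), (∀ n, ‖F n‖ ≤ 1) → (∀ n, ‖G n‖ ≤ 1) →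
      ‖CS c S M P a y F G α β‖ ^ (2 * D) ≤ (8 * ((M : ℝ) / S) ^ 2) ^ D * Tr y :=
    fun y F G hF hG => by
      rw [hTr, hD]
      exact hMAT c S M P a y r F G α β hS hSM haP hF hG
  have hTr0 : ∀ y, 0 ≤ Tr y := by
    intro y
    have h := hmat y 0 0 (by simp) (by simp)
    have h1 : 0 ≤ (8 * ((M : ℝ) / S) ^ 2) ^ D * Tr y := le_trans (by positivity) h
    exact nonneg_of_mul_nonneg_right h1 (by positivity)
  have htrb : ∑ y ∈ Ico Y₁ (Y₁ + Y), Tr y ≤ (Y : ℝ) * (M / S) * 16 ^ D * (R * Q) ^ D +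
      ((M : ℝ) * π) ^ (2 * D) * (2 * P) ^ (4 * D) := by
    rw [Finset.sum_congr rfl fun y _ => hTr y, hπ, hD]
    exact hTRB c S M P a Y₁ Y (2 ^ r) α β R Q hc hS hSP Nat.one_le_two_pow
      (by rw [hR, hπ]) (by rw [hQ]; push_cast; ring) hQR
  rw [← hD]
  have hτ0 : 0 < (ε ^ 2 * R ^ 2 / 8) ^ D := by positivity
  have hkey : ∀ y ∈ (Ico Y₁ (Y₁ + Y)).filter (fun y => ∃ F G : ℕ → ℂ, (∀ n, ‖F n‖ ≤ 1) ∧
      (∀ n, ‖G n‖ ≤ 1) ∧ ε * M * π < ‖CS c S M P a y F G α β‖),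
      (ε ^ 2 * R ^ 2 / 8) ^ D ≤ Tr y := by
    intro y hy
    obtain ⟨-, F, G, hF, hG, hlt⟩ := Finset.mem_filter.1 hy
    have h1 : (ε * M * π) ^ (2 * D) ≤ ‖CS c S M P a y F G α β‖ ^ (2 * D) :=
      pow_le_pow_left₀ (by positivity) hlt.le _
    have h2 := h1.trans (hmat y F G hF hG)
    have h3 : (ε * M * π) ^ (2 * D) = (8 * ((M : ℝ) / S) ^ 2) ^ D * (ε ^ 2 * R ^ 2 / 8) ^ D := by
      rw [pow_mul, ← mul_pow, hR]
      congr 1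
      field_simp
    rw [h3] at h2
    exact le_of_mul_le_mul_left h2 (by positivity)
  have hcard : ((((Ico Y₁ (Y₁ + Y)).filter fun y => ∃ F G : ℕ → ℂ, (∀ n, ‖F n‖ ≤ 1) ∧
      (∀ n, ‖G n‖ ≤ 1) ∧ ε * M * π < ‖CS c S M P a y F G α β‖).card : ℕ) : ℝ) *
      (ε ^ 2 * R ^ 2 / 8) ^ D ≤ ∑ y ∈ Ico Y₁ (Y₁ + Y), Tr y := by
    rw [← nsmul_eq_mul]
    refine (Finset.card_nsmul_le_sum _ _ _ hkey).trans ?_
    exact Finset.sum_le_sum_of_subset_of_nonneg (Finset.filter_subset _ _) fun y _ _ => hTr0 y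
  refine le_of_mul_le_mul_right ((hcard.trans htrb).trans ?_) hτ0
  rw [add_mul]
  refine add_le_add (le_of_eq ?_) ?_
  · rw [mul_assoc ((Y : ℝ) * (M / S)), mul_assoc ((Y : ℝ) * (M / S)), ← mul_pow, ← mul_pow]
    congr 2
    field_simp
    ring
  · have h4 : ((M : ℝ) * π) ^ (2 * D) * (2 * P) ^ (4 * D) =
        (((M : ℝ) * π) ^ 2 * (2 * P) ^ 4) ^ D := by
      rw [mul_pow _ _ D, ← pow_mul, ← pow_mul]
    have h5 : ((M : ℝ) * (2 * P) ^ 2 * (3 / ε)) ^ (2 * D) * (ε ^ 2 * R ^ 2 / 8) ^ D =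
        (((M : ℝ) * (2 * P) ^ 2 * (3 / ε)) ^ 2 * (ε ^ 2 * R ^ 2 / 8)) ^ D := by
      rw [mul_pow _ _ D, ← pow_mul]
    rw [h4, h5]
    refine pow_le_pow_left₀ (by positivity) ?_ _
    have h6 : ((M : ℝ) * (2 * P) ^ 2 * (3 / ε)) ^ 2 * (ε ^ 2 * R ^ 2 / 8) =
        (9 / 8) * (((M : ℝ) ^ 2 * (2 * P) ^ 4) * R ^ 2) := by
      field_simp
      ring
    rw [h6]
    have h7 : π ^ 2 ≤ R ^ 2 := by
      rw [hR]
      refine pow_le_pow_left₀ hπ0.le ?_ 2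
      nlinarith
    calc ((M : ℝ) * π) ^ 2 * (2 * P) ^ 4 = ((M : ℝ) ^ 2 * (2 * P) ^ 4) * π ^ 2 := by ring
      _ ≤ ((M : ℝ) ^ 2 * (2 * P) ^ 4) * R ^ 2 := by gcongr
      _ ≤ (9 / 8) * (((M : ℝ) ^ 2 * (2 * P) ^ 4) * R ^ 2) := by
        have : 0 ≤ ((M : ℝ) ^ 2 * (2 * P) ^ 4) * R ^ 2 := by positivity
        linarith

end Pool.Agent.H79.CE
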